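import Mathlib

/-!
Kuhn's cubical Sperner lemma and the discrete Lebesgue covering theorem.

A simplex of the Kuhn triangulation of the integer lattice is coded as a cyclic sequence of
`n + 1` points whose steps are the unit vectors and the vector `-1`, each used once.
-/

namespace Pool.Agent.Lib.Kuhn

open Finset

variable {n : ℕ}

/-- The steps. -/
def dd : Option (Fin n) → Fin n → ℤ
  | none => fun _ => -1
  | some i => Pi.single i 1

/-- A simplex, indexed by the coordinate sum modulo `n + 1`. -/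
def Sx (x : ZMod (n + 1) → Fin n → ℤ) : Prop :=
  (∀ t, ((∑ i, x t i : ℤ) : ZMod (n + 1)) = t) ∧
    ∃ σ : ZMod (n + 1) → Option (Fin n), Function.Injective σ ∧ ∀ t, x (t + 1) - x t = dd (σ t)

/-- Reflection of a simplex through the facet opposite to the vertex `j`. -/
def flip (x : ZMod (n + 1) → Fin n → ℤ) (j : ZMod (n + 1)) : ZMod (n + 1) → Fin n → ℤ :=
  Function.update x j (x (j - 1) + x (j + 1) - x j)

lemma dd_inj (_hn : 1 ≤ n) : Function.Injective (dd (n := n)) := by
  intro a b h
  rcases a with _ | a <;> rcases b with _ | b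
  · rfl
  · have := congrFun h b; simp [dd] at this
  · have := congrFun h a; simp [dd] at this
  · have := congrFun h a
    by_contra hne
    have hab : a ≠ b := fun h => hne (by rw [h])
    simp [dd, hab] at this

lemma one_ne_zero' (hn : 1 ≤ n) : (1 : ZMod (n + 1)) ≠ 0 := by
  have : Fact (1 < n + 1) := ⟨by omega⟩
  exact one_ne_zero

lemma flip_flip (hn : 1 ≤ n) (x : ZMod (n + 1) → Fin n → ℤ) (j : ZMod (n + 1)) :
    flip (flip x j) j = x := by
  have h1 : j - 1 ≠ j := by simpa using one_ne_zero' hn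
  have h2 : j + 1 ≠ j := by simpa using one_ne_zero' hn
  simp [flip, h1, h2]

lemma flip_of_ne (x : ZMod (n + 1) → Fin n → ℤ) {j t : ZMod (n + 1)} (h : t ≠ j) :
    flip x j t = x t := by simp [flip, h]

lemma flip_ne (hn : 1 ≤ n) {x : ZMod (n + 1) → Fin n → ℤ} (hx : Sx x) (j : ZMod (n + 1)) :
    flip x j ≠ x := by
  obtain ⟨_, σ, hσ, h⟩ := hx
  intro he
  have h1 : j - 1 ≠ j := by simpa using one_ne_zero' hn
  have e := congrFun he j
  simp only [flip, Function.update_self] at e
  have a := h (j - 1)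
  have b := h j
  rw [sub_add_cancel] at a
  apply h1
  apply hσ
  apply dd_inj hn
  rw [← a, ← b]
  linear_combination (-1 : Fin n → ℤ) * e

lemma sx_flip (hn : 1 ≤ n) {x : ZMod (n + 1) → Fin n → ℤ} (hx : Sx x) (j : ZMod (n + 1)) :
    Sx (flip x j) := by
  obtain ⟨h0, σ, hσ, h⟩ := hx
  have h1 : j - 1 ≠ j := by simpa using one_ne_zero' hn
  have h2 : j + 1 ≠ j := by simpa using one_ne_zero' hn
  refine ⟨fun t => ?_, σ ∘ Equiv.swap (j - 1) j, hσ.comp (Equiv.injective _), fun t => ?_⟩
  · by_cases ht : t = j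
    · subst ht
      simp only [flip, Function.update_self, Pi.sub_apply, Pi.add_apply, sum_sub_distrib,
        sum_add_distrib, Int.cast_sub, Int.cast_add, h0]
      ring
    · rw [flip_of_ne x ht, h0]
  · by_cases ht : t = j
    · subst ht
      have a := h (t - 1)
      rw [sub_add_cancel] at a
      rw [flip_of_ne x h2, Function.comp_apply, Equiv.swap_apply_right, ← a]
      simp only [flip, Function.update_self]
      ring
    · by_cases ht' : t = j - 1
      · subst ht'
        rw [flip_of_ne x h1, Function.comp_apply, Equiv.swap_apply_left, ← h j, sub_add_cancel]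
        simp only [flip, Function.update_self]
        ring
      · have : t + 1 ≠ j := fun e => ht' (by rw [← e]; ring)
        rw [flip_of_ne x ht, flip_of_ne x this, Function.comp_apply,
          Equiv.swap_apply_of_ne_of_ne ht' ht, h]

lemma sx_close {x : ZMod (n + 1) → Fin n → ℤ} (hx : Sx x) (s t : ZMod (n + 1)) (i : Fin n) :
    x s i ≤ x t i + 1 := by
  obtain ⟨_, σ, hσ, h⟩ := hx
  have hbij : Function.Bijective σ :=
    (Fintype.bijective_iff_injective_and_card σ).2 ⟨hσ, by simp⟩
  obtain ⟨a, ha⟩ := hbij.2 (some i)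
  have hstep : ∀ u, u ≠ a → x (u + 1) i ≤ x u i := by
    intro u hu
    have e := congrFun (h u) i
    have hne : σ u ≠ some i := fun h' => hu (hσ (h'.trans ha.symm))
    rcases hs : σ u with _ | k
    · rw [hs] at e; simp [dd] at e; omega
    · have : i ≠ k := fun h' => hne (by rw [hs, h'])
      rw [hs] at e; simp [dd, this] at e; omega
  have hcast : ∀ k : ℕ, k < n → a + 1 + (k : ZMod (n + 1)) ≠ a := by
    intro k hk h'
    have : ((k + 1 : ℕ) : ZMod (n + 1)) = 0 := by push_cast; linear_combination h'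
    rw [ZMod.natCast_eq_zero_iff] at this
    have := Nat.le_of_dvd (by omega) this
    omega
  have hmono : ∀ k l : ℕ, k ≤ l → l ≤ n → x (a + 1 + l) i ≤ x (a + 1 + k) i := by
    intro k l hkl hl
    induction l, hkl using Nat.le_induction with
    | base => rfl
    | succ l _ ih =>
      refine le_trans ?_ (ih (by omega))
      have := hstep _ (hcast l (by omega))
      push_cast
      rwa [← add_assoc]
  have hrep : ∀ u : ZMod (n + 1), ∃ k : ℕ, k ≤ n ∧ u = a + 1 + k := by
    intro u
    refine ⟨(u - (a + 1)).val, Nat.lt_succ_iff.1 (ZMod.val_lt _), ?_⟩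
    rw [ZMod.natCast_zmod_val]; ring
  obtain ⟨k, hk, rfl⟩ := hrep s
  obtain ⟨l, hl, rfl⟩ := hrep t
  have e1 := hmono 0 k (by omega) hk
  have e2 := hmono l n hl le_rfl
  have e3 : a + 1 + (n : ZMod (n + 1)) = a := by
    have : ((n + 1 : ℕ) : ZMod (n + 1)) = 0 := ZMod.natCast_self _
    push_cast at this
    linear_combination this
  have e4 := congrFun (h a) i
  rw [ha] at e4
  simp [dd] at e4
  rw [e3] at e2
  simp only [Nat.cast_zero, add_zero] at e1
  omega

/-- The facet opposite to `j` carries all labels but the last one. -/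
def Door (h : ZMod (n + 1) → Fin (n + 1)) (j : ZMod (n + 1)) : Prop :=
  ∀ c, c ≠ Fin.last n → ∃ t, t ≠ j ∧ h t = c

open Classical in
lemma door_parity (h : ZMod (n + 1) → Fin (n + 1)) :
    ∑ j, (if Door h j then (1 : ZMod 2) else 0) = if Function.Surjective h then 1 else 0 := by
  have hb : ∀ h : ZMod (n + 1) → Fin (n + 1), Function.Surjective h → Function.Injective h :=
    fun h hs => ((Fintype.bijective_iff_surjective_and_card h).2 ⟨hs, by simp⟩).1
  rw [sum_boole]
  split_ifs with hs
  · obtain ⟨j0, hj0⟩ := hs (Fin.last n)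
    have : univ.filter (Door h) = {j0} := by
      ext j
      simp only [mem_filter, mem_univ, true_and, mem_singleton]
      constructor
      · intro hd
        by_contra hne
        obtain ⟨t, ht, e⟩ := hd (h j) fun e => hne (hb h hs (e.trans hj0.symm))
        exact ht (hb h hs e)
      · rintro rfl c hc
        obtain ⟨t, rfl⟩ := hs c
        exact ⟨t, fun e => hc (e ▸ hj0), rfl⟩
    rw [this]; simp
  · rcases (univ.filter (Door h)).eq_empty_or_nonempty with he | ⟨j0, hj0⟩
    · rw [he]; simp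
    have hd0 : Door h j0 := (mem_filter.1 hj0).2
    have hs' : Function.Surjective (Function.update h j0 (Fin.last n)) := by
      intro c
      by_cases hc : c = Fin.last n
      · exact ⟨j0, by simp [hc]⟩
      · obtain ⟨t, ht, e⟩ := hd0 c hc
        exact ⟨t, by simp [ht, e]⟩
    have hi := hb _ hs'
    have hinj : ∀ s t, s ≠ j0 → t ≠ j0 → h s = h t → s = t := by
      intro s t hs ht e
      exact hi (by simp [hs, ht, e])
    have hnl : ∀ t, h t ≠ Fin.last n := by
      intro t e
      apply hs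
      intro c
      by_cases hc : c = Fin.last n
      · exact ⟨t, e.trans hc.symm⟩
      · obtain ⟨s, _, e'⟩ := hd0 c hc
        exact ⟨s, e'⟩
    obtain ⟨j1, hj1, e1⟩ := hd0 (h j0) (hnl j0)
    have : univ.filter (Door h) = {j0, j1} := by
      ext j
      simp only [mem_filter, mem_univ, true_and, mem_insert, mem_singleton]
      constructor
      · intro hd
        by_contra hne
        push Not at hne
        obtain ⟨t, ht, e⟩ := hd (h j) (hnl j)
        by_cases ht0 : t = j0
        · exact hne.2 (hinj _ _ hne.1 hj1 (by rw [e1, ← ht0, e]))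
        · exact ht (hinj _ _ ht0 hne.1 e)
      · rintro (rfl | rfl)
        · exact hd0
        · intro c hc
          obtain ⟨t, ht, e⟩ := hd0 c hc
          by_cases htj : t = j
          · exact ⟨j0, hj1.symm, by rw [← e1, ← htj, e]⟩
          · exact ⟨t, htj, e⟩
    rw [this, card_pair hj1.symm]
    rfl

lemma finite_star (A : Finset (Fin n → ℤ)) :
    {x : ZMod (n + 1) → Fin n → ℤ | Sx x ∧ ∃ t, x t ∈ A}.Finite := by
  classical
  set B := A.biUnion fun a => Fintype.piFinset fun i => Icc (a i - 1) (a i + 1) with hB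
  refine (Set.Finite.pi' (fun _ : ZMod (n + 1) => B.finite_toSet)).subset ?_
  rintro x ⟨hx, t, ht⟩ s
  refine mem_coe.2 (mem_biUnion.2 ⟨x t, ht, Fintype.mem_piFinset.2 fun i => mem_Icc.2 ?_⟩)
  have := sx_close hx s t i
  have := sx_close hx t s i
  omega

open Classical in
lemma parity_eq (hn : 1 ≤ n) (A : Finset (Fin n → ℤ)) (g g' : (Fin n → ℤ) → Fin (n + 1))
    (hgg : ∀ v, v ∉ A → g v = g' v) :
    ∑ x ∈ (finite_star A).toFinset, (if Function.Surjective (g ∘ x) then (1 : ZMod 2) else 0) =
      ∑ x ∈ (finite_star A).toFinset,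
        (if Function.Surjective (g' ∘ x) then (1 : ZMod 2) else 0) := by
  set T := (finite_star A).toFinset with hT
  have hmem : ∀ x, x ∈ T ↔ Sx x ∧ ∃ t, x t ∈ A := fun x => Set.Finite.mem_toFinset _
  have key : ∀ g : (Fin n → ℤ) → Fin (n + 1),
      ∑ x ∈ T, (if Function.Surjective (g ∘ x) then (1 : ZMod 2) else 0) =
      ∑ a ∈ (T ×ˢ univ).filter (fun a => ¬ flip a.1 a.2 ∈ T),
        if Door (g ∘ a.1) a.2 then (1 : ZMod 2) else 0 := by
    intro g
    simp only [← door_parity]
    rw [← sum_product' (f := fun x j => if Door (g ∘ x) j then (1 : ZMod 2) else 0),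
      ← sum_filter_add_sum_filter_not (T ×ˢ univ) (fun a => flip a.1 a.2 ∈ T)]
    rw [sum_involution (s := (T ×ˢ univ).filter (fun a => flip a.1 a.2 ∈ T))
      (fun a _ => (flip a.1 a.2, a.2)), zero_add]
    · intro a _
      have : Door (g ∘ flip a.1 a.2) a.2 ↔ Door (g ∘ a.1) a.2 := by
        refine forall₂_congr fun c _ => exists_congr fun t => and_congr_right fun ht => ?_
        simp [flip_of_ne _ ht]
      simp only [this]
      split_ifs <;> rfl
    · intro a ha _ e
      exact flip_ne hn ((hmem _).1 (mem_product.1 (mem_filter.1 ha).1).1).1 a.2 (congrArg Prod.fst e)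
    · intro a ha
      obtain ⟨h1, h2⟩ := mem_filter.1 ha
      refine mem_filter.2 ⟨mem_product.2 ⟨h2, mem_univ _⟩, ?_⟩
      simp only [flip_flip hn]
      exact (mem_product.1 h1).1
    · intro a _
      simp [flip_flip hn]
  rw [key, key]
  refine sum_congr rfl fun a ha => ?_
  obtain ⟨h1, h2⟩ := mem_filter.1 ha
  have hx := ((hmem _).1 (mem_product.1 h1).1).1
  have : Door (g ∘ a.1) a.2 ↔ Door (g' ∘ a.1) a.2 := by
    refine forall₂_congr fun c _ => exists_congr fun t => and_congr_right fun ht => ?_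
    have : a.1 t ∉ A := fun h => h2 ((hmem _).2 ⟨sx_flip hn hx _, t, by rwa [flip_of_ne _ ht]⟩)
    simp [hgg _ this]
  simp only [this]

open Classical in
/-- The reduced label: the first index at which `P` fails. -/
noncomputable def red (P : Fin n → Prop) : Fin (n + 1) :=
  ⟨Nat.find (p := fun k => k = n ∨ ∃ h : k < n, ¬ P ⟨k, h⟩) ⟨n, Or.inl rfl⟩,
    Nat.lt_succ_of_le (Nat.find_le (Or.inl rfl))⟩

lemma red_lt {P : Fin n → Prop} {i : Fin n} (h : (i : ℕ) < red P) : P i := by
  classical
  by_contra hn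
  exact Nat.find_min _ h (Or.inr ⟨i.2, hn⟩)

lemma red_eq {P : Fin n → Prop} {i : Fin n} (h : (red P : ℕ) = i) : ¬ P i := by
  classical
  have := Nat.find_spec (p := fun k => k = n ∨ ∃ h : k < n, ¬ P ⟨k, h⟩) ⟨n, Or.inl rfl⟩
  have e : Nat.find (p := fun k => k = n ∨ ∃ h : k < n, ¬ P ⟨k, h⟩) ⟨n, Or.inl rfl⟩ = i := h
  rw [e] at this
  rcases this with h' | ⟨_, h'⟩
  · exact absurd i.2 (by omega)
  · exact h'

/-- The standard simplex. -/
def std (t : ZMod (n + 1)) : Fin n → ℤ := fun i => if (i : ℕ) < t.val then 1 else 0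

lemma sum_ind (k : ℕ) (hk : k ≤ n) : ∑ i : Fin n, (if (i : ℕ) < k then (1 : ℤ) else 0) = k := by
  rw [Fin.sum_univ_eq_sum_range (fun i => if i < k then (1 : ℤ) else 0) n, sum_boole]
  have : (range n).filter (· < k) = range k := by
    ext j; simp only [mem_filter, mem_range]; omega
  rw [this, card_range]

lemma sx_std : Sx (std (n := n)) := by
  refine ⟨fun t => ?_, fun t => if h : t.val < n then some ⟨t.val, h⟩ else none, ?_, fun t => ?_⟩
  · have := sum_ind (n := n) t.val (Nat.lt_succ_iff.1 (ZMod.val_lt t))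
    simp only [std]
    rw [this]; simp
  · intro s t h
    apply ZMod.val_injective
    have := ZMod.val_lt s
    have := ZMod.val_lt t
    simp only at h
    split_ifs at h with h1 h2 h2
    · simpa using h
    · omega
  · have h1 := ZMod.val_lt t
    have h2 : (t + 1).val = (t.val + 1) % (n + 1) := by
      rw [ZMod.val_add, ZMod.val_one_eq_one_mod, Nat.add_mod_mod]
    funext i
    have := i.2
    simp only
    split_ifs with h
    · rw [Nat.mod_eq_of_lt (by omega)] at h2
      simp only [std, dd, Pi.sub_apply, h2, Pi.single_apply, Fin.ext_iff]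
      split_ifs <;> omega
    · have e : t.val = n := by omega
      rw [e, Nat.mod_self] at h2
      simp [std, dd, h2, e]

lemma red_std (t : ZMod (n + 1)) : (red (fun i => 0 < std t i) : ℕ) = t.val := by
  have h1 := ZMod.val_lt t
  have h2 := (red (fun i => 0 < std t i)).2
  by_contra hne
  rcases lt_or_gt_of_ne hne with h | h
  · generalize hr : (red (fun i => 0 < std t i) : ℕ) = r at h h2
    have := red_eq (P := fun i => 0 < std t i) (i := ⟨r, by omega⟩) hr
    simp [std, h] at this
  · have := red_lt (P := fun i => 0 < std t i) (i := ⟨t.val, by omega⟩) h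
    simp [std] at this

lemma eq_std {x : ZMod (n + 1) → Fin n → ℤ} (hx : Sx x)
    (hs : Function.Surjective fun t => red fun i => 0 < x t i) : x = std := by
  obtain ⟨tn, htn⟩ := hs (Fin.last n)
  have h01 : ∀ t i, 0 ≤ x t i ∧ x t i ≤ 1 := by
    intro t i
    obtain ⟨s, hs'⟩ := hs i.castSucc
    have a1 : ¬ 0 < x s i := red_eq (P := fun i => 0 < x s i) (by simp only at hs'; rw [hs']; rfl)
    have a2 : 0 < x tn i := red_lt (P := fun i => 0 < x tn i) (by simp only at htn; rw [htn]; simp)
    have := sx_close hx t s i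
    have := sx_close hx tn t i
    omega
  set r : ZMod (n + 1) → ℕ := fun t => (red fun i => 0 < x t i : ℕ) with hr
  have hrn : ∀ t, r t ≤ n := fun t => Nat.lt_succ_iff.1 (red _).2
  have hle : ∀ t (i : Fin n), (if (i : ℕ) < r t then (1 : ℤ) else 0) ≤ x t i := by
    intro t i
    split_ifs with h
    · exact red_lt (P := fun i => 0 < x t i) h
    · exact (h01 t i).1
  have hsum : ∀ t, ∑ i, x t i = t.val := by
    intro t
    have a1 : 0 ≤ ∑ i, x t i := sum_nonneg fun i _ => (h01 t i).1
    have a2 : ∑ i, x t i ≤ n := by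
      calc ∑ i, x t i ≤ ∑ _i : Fin n, (1 : ℤ) := sum_le_sum fun i _ => (h01 t i).2
        _ = n := by simp
    have a3 := hx.1 t
    obtain ⟨k, hk⟩ := Int.eq_ofNat_of_zero_le a1
    rw [hk] at a2 a3 ⊢
    rw [← a3, Int.cast_natCast, ZMod.val_cast_of_lt (by omega)]
  have hrt : ∀ t, r t ≤ t.val := by
    intro t
    have := sum_le_sum fun i (_ : i ∈ univ) => hle t i
    rw [sum_ind _ (hrn t), hsum] at this
    exact_mod_cast this
  have htot : ∑ t, r t = ∑ t : ZMod (n + 1), t.val := by
    have hb : Function.Bijective fun t => red fun i => 0 < x t i :=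
      (Fintype.bijective_iff_surjective_and_card _).2 ⟨hs, by simp⟩
    exact hb.sum_comp (fun c : Fin (n + 1) => (c : ℕ))
  have hreq : ∀ t, r t = t.val := fun t =>
    (sum_eq_sum_iff_of_le fun t _ => hrt t).1 htot t (mem_univ t)
  funext t i
  have := (sum_eq_sum_iff_of_le fun i (_ : i ∈ univ) => hle t i).1
    (by rw [sum_ind _ (hrn t), hsum, hreq]) i (mem_univ i)
  rw [← this, hreq]; rfl

/-- Kuhn's lemma. -/
theorem kuhn (hn : 1 ≤ n) {M : ℤ} (hM : 1 ≤ M) (L : (Fin n → ℤ) → Fin n → Prop)
    (h0 : ∀ v : Fin n → ℤ, (∀ k, 0 ≤ v k ∧ v k ≤ M) → ∀ i, v i = 0 → ¬ L v i)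
    (h1 : ∀ v : Fin n → ℤ, (∀ k, 0 ≤ v k ∧ v k ≤ M) → ∀ i, v i = M → L v i) :
    ∃ w : Fin (n + 1) → Fin n → ℤ, (∀ j k, 0 ≤ w j k ∧ w j k ≤ M) ∧
      (∀ j j' k, w j k ≤ w j' k + 1) ∧ ∀ j, red (L (w j)) = j := by
  classical
  set A : Finset (Fin n → ℤ) := Fintype.piFinset fun _ => Icc 0 M with hA
  have hmemA : ∀ v, v ∈ A ↔ ∀ k, 0 ≤ v k ∧ v k ≤ M := by
    intro v; simp [hA]
  set L' : (Fin n → ℤ) → Fin n → Prop := fun v i => if v ∈ A then L v i else 0 < v i with hL'
  have hpar := parity_eq hn A (fun v => red (L' v)) (fun v => red fun i => 0 < v i)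
    (fun v hv => by simp [hL', hv])
  have hstdT : std ∈ (finite_star A).toFinset :=
    (Set.Finite.mem_toFinset _).2 ⟨sx_std, 0, (hmemA _).2 fun k => by simp [std]; omega⟩
  rw [sum_eq_single_of_mem _ hstdT (f := fun x => if Function.Surjective
    ((fun v => red fun i => 0 < v i) ∘ x) then (1 : ZMod 2) else 0), if_pos] at hpar
  · obtain ⟨x, hxT, hx⟩ := exists_ne_zero_of_sum_ne_zero (hpar ▸ one_ne_zero)
    have hs : Function.Surjective ((fun v => red (L' v)) ∘ x) := by
      by_contra hcon; exact hx (if_neg hcon)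
    have hsx : Sx x := ((Set.Finite.mem_toFinset _).1 hxT).1
    have lo : ∀ v i, v i ≤ 0 → ¬ L' v i := by
      intro v i hv
      simp only [hL']
      split_ifs with h
      · exact h0 v ((hmemA v).1 h) i (le_antisymm hv ((hmemA v).1 h i).1)
      · omega
    have hi : ∀ v i, M ≤ v i → L' v i := by
      intro v i hv
      simp only [hL']
      split_ifs with h
      · exact h1 v ((hmemA v).1 h) i (le_antisymm ((hmemA v).1 h i).2 hv)
      · omega
    have hin : ∀ t k, 0 ≤ x t k ∧ x t k ≤ M := by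
      intro t k
      constructor
      · obtain ⟨s, hs'⟩ := hs (Fin.last n)
        have a : L' (x s) k := red_lt (by simp only [Function.comp_apply] at hs'; rw [hs']; simp)
        have := sx_close hsx s t k
        by_contra hcon
        exact lo _ k (by omega) a
      · obtain ⟨s, hs'⟩ := hs k.castSucc
        have a : ¬ L' (x s) k := red_eq (by simp only [Function.comp_apply] at hs'; rw [hs']; rfl)
        have := sx_close hsx t s k
        by_contra hcon
        exact a (hi _ k (by omega))
    choose s hs' using hs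
    refine ⟨fun j => x (s j), fun j => hin _, fun j j' k => sx_close hsx _ _ k, fun j => ?_⟩
    refine Eq.trans ?_ (hs' j)
    simp [hL', (hmemA _).2 (hin (s j))]
  · intro c
    refine ⟨(c : ℕ), Fin.ext ?_⟩
    rw [Function.comp_apply, red_std, ZMod.val_cast_of_lt c.2]
  · intro x hx hne
    exact if_neg fun h => hne (eq_std ((Set.Finite.mem_toFinset _).1 hx).1 h)

/-- The discrete Lebesgue covering theorem: if no colour class of the grid meets two opposite
faces, then some unit cell contains `n + 1` colours. -/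
theorem lebesgue (hn : 1 ≤ n) {M : ℤ} (hM : 1 ≤ M) {C : Type*} (c : (Fin n → ℤ) → C)
    (hc : ∀ u v : Fin n → ℤ, (∀ k, 0 ≤ u k ∧ u k ≤ M) → (∀ k, 0 ≤ v k ∧ v k ≤ M) →
      ∀ i, u i = 0 → v i = M → c u ≠ c v) :
    ∃ w : Fin (n + 1) → Fin n → ℤ, (∀ j k, 0 ≤ w j k ∧ w j k ≤ M) ∧
      (∀ j j' k, w j k ≤ w j' k + 1) ∧ Function.Injective fun j => c (w j) := by
  obtain ⟨w, h1, h2, h3⟩ := kuhn hn hM
    (fun v i => ¬ ∃ u : Fin n → ℤ, (∀ k, 0 ≤ u k ∧ u k ≤ M) ∧ u i = 0 ∧ c u = c v)
    (fun v hv i hi h => h ⟨v, hv, hi, rfl⟩)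
    (fun v hv i hi ⟨u, hu, hui, e⟩ => hc u v hu hv i hui hi e)
  refine ⟨w, h1, h2, fun j j' e => ?_⟩
  simp only at e
  rw [← h3 j, ← h3 j', e]

end Pool.Agent.Lib.Kuhn
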